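import Mathlib
import Pool.Agent.MP_77405c_lc.Link2
import Pool.Agent.MP_77405c_lc.Iter
import Pool.Agent.MP_77405c_lc.Kf
import Pool.Agent.MP_77405c_lc.Sch
import Pool.Agent.MP_77405c_lc.Conc

/-! A model of ZFC + CH in which every Aronszajn line contains a Countryman line. -/

namespace Pool.Agent.Results.MP_77405c_lc.CountrymanCH

open Pool.Agent.Ctry

theorem result : ∃ (M : Type 2) (E : M → M → Prop), ZFC E ∧ ∃ w o, IOmega E w ∧ IOmega1 E w o ∧
    ICH E w o ∧ ∀ L r, IAron E w o L r → ∃ C, ISub E C L ∧ ICtry E w C r :=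
  Fc.final_of (main_of (book Conc.conc (Iso.iso Chi.prune (Chi.br Chi.spec))
    (Kf.kf Chi.prune (Chi.br Chi.spec)) (Sch.sch Ext.ext Ext.comb) Bridge.bridge
    (iter Ap.ap cs)) Ap.refl (Two.two Line.line (Line.sel Chi.chi Chi.spec) Ext.ext Ext.comb)
    (Bridge.ch Ext.ext)) Fc.Link1.om1 Fc.Link1.chf Fc.Link2.aron Fc.Link1.ctry

end Pool.Agent.Results.MP_77405c_lc.CountrymanCH
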