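import Mathlib
import Pool.Agent.MP_77405c_lc.PS.Main

/-! Every Aronszajn line gets a Countryman suborder in a totally proper forcing extension. -/

namespace Pool.Agent.Results.MP_77405c_lc.ProperStep

open Pool.Agent.Ctry.PS

theorem result (L : Type) [LinearOrder L] (hL : Aronszajn L) :
    ∃ (B : Type) (_ : CompleteBooleanAlgebra B), Nontrivial B ∧ TotallyProper B ∧
      (∀ r : ℕ → B, ⨆ s : Set ℕ, (⨅ n ∈ s, r n) ⊓ ⨅ n ∉ s, (r n)ᶜ = ⊤) ∧
      ∃ (A : L → B) (K : ℕ → L × L → B),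
        (∀ f : ℕ → L → B, (∀ n, Pairwise fun x y => Disjoint (f n x) (f n y)) →
          ⨅ x, (A x ⇨ ⨆ n, f n x) = ⊥) ∧
        (∀ x y, A x ⊓ A y = ⨆ n, K n (x, y)) ∧
        ∀ n z z', ¬ z ≤ z' → ¬ z' ≤ z → Disjoint (K n z) (K n z') :=
  main L hL

end Pool.Agent.Results.MP_77405c_lc.ProperStep
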